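import Pool.Agent.H954.TR.Fin

set_option autoImplicit false

/-!
# Infinite clusters on the canopy tree times the line are transient

`perc G p` is Bernoulli bond percolation on `G`, `opn G ω` is the graph of the open edges,
`InfCl G ω x` says that the open cluster of `x` is infinite, and `Transient H x` says that the
simple random walk on `H` started at `x` has a finite expected number of visits to `x`.
-/

namespace Pool.Agent.Results.MP_c3c849_pr.ClustersTransient

open MeasureTheory ProbabilityTheory
open Pool.Agent.Helper98K9.CP
open Pool.Agent.H954.TR (srw Transient emb_transient emb_comp)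
open scoped ENNReal NNReal

/-- For every `d ≥ 3`, every canopy tree `C` of degree `d` and every `p`, almost surely every
infinite open cluster of Bernoulli(`p`) bond percolation on the product of `C` with the line is
transient for the simple random walk. -/
theorem result (d : ℕ) (hd : 3 ≤ d) (V : Type) (C : SimpleGraph V) (l : V → ℕ)
    (hC : IsCanopy d C l) (p : ℝ≥0) :
    ∀ᵐ ω ∂(perc (C.boxProd line) p), ∀ x : V × ℤ,
      InfCl (C.boxProd line) ω x → Transient (opn (C.boxProd line) ω) x := by
  have hb : 2 ≤ d - 1 := by omega
  obtain ⟨φ⟩ := caniso d hd V C l hC
  have : Countable V := φ.toEquiv.injective.countable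
  exact emb_transient hb (emb_comp
    (Pool.Agent.Results.MP_3f1d68_pr.CanopyLineEqHalfLine.emb_canopyZ d) (boxIso φ line)) p

end Pool.Agent.Results.MP_c3c849_pr.ClustersTransient
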